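import Pool.Agent.Helper65.CS.Goals2

/-!
# PR3: parameters, part 3
-/

namespace Pool.Agent.Helper89.CS

open Pool.Agent.Helper78.DT Pool.Agent.Helper65.CS

theorem two_pow_bb {L : ℕ} (hL : L ≠ 0) : 2 ^ bb L ≤ 4 * L ^ 2 := by
  have h1 : 2 ^ Nat.log 2 L ≤ L := Nat.pow_log_le_self 2 hL
  have h2 : 2 ^ bb L = 4 * (2 ^ Nat.log 2 L) ^ 2 := by
    unfold bb
    rw [Nat.mul_comm 2, pow_mul, pow_succ]
    ring
  rw [h2]
  exact Nat.mul_le_mul_left 4 (Nat.pow_le_pow_left h1 2)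

theorem pr3 : Pr3Stmt := by
  intro c
  refine ⟨160, fun N hN => ?_⟩
  have hNL : N ≤ 2 ^ lg N := by
    have h1 : N < 2 ^ (Nat.log 2 N + 1) := Nat.lt_pow_succ_log_self (by norm_num) _
    have h2 : 2 ^ (Nat.log 2 N + 1) ≤ 2 ^ lg N := Nat.pow_le_pow_right (by norm_num) (by unfold lg; omega)
    omega
  generalize lg N = L at hN hNL
  have hL0 : L ≠ 0 := by omega
  have hLr : (160 : ℝ) ≤ L := by exact_mod_cast hN
  have hLp : (0 : ℝ) < L := by linarith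
  constructor
  · have h1 : TT L ≤ 8 * L ^ 3 := by
      unfold TT
      calc 2 * 2 ^ bb L * L ≤ 2 * (4 * L ^ 2) * L :=
            Nat.mul_le_mul_right L (Nat.mul_le_mul_left 2 (two_pow_bb hL0))
        _ = 8 * L ^ 3 := by ring
    have h2 : (TT L : ℝ) ≤ 8 * (L : ℝ) ^ 3 := by exact_mod_cast h1
    rw [mul_div_assoc', div_le_div_iff₀ (by positivity) (by positivity)]
    have h3 : (0 : ℝ) ≤ (L : ℝ) ^ c := by positivity
    calc (TT L : ℝ) * 5 * (4 * (L : ℝ) ^ c) ≤ 8 * (L : ℝ) ^ 3 * 5 * (4 * (L : ℝ) ^ c) := by gcongr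
      _ = 160 * ((L : ℝ) ^ 3 * (L : ℝ) ^ c) := by ring
      _ ≤ L * ((L : ℝ) ^ 3 * (L : ℝ) ^ c) := by gcongr
      _ = 1 * (L : ℝ) ^ (c + 4) := by ring
  · have h1 : N * (4 * L ^ c) ≤ 2 ^ Ww c L := by
      have h2 : L ^ c ≤ (2 ^ L) ^ c := Nat.pow_le_pow_left Nat.lt_two_pow_self.le c
      have h3 : 4 ≤ 2 ^ (2 * L) := by
        calc 4 = 2 ^ 2 := by norm_num
          _ ≤ 2 ^ (2 * L) := Nat.pow_le_pow_right (by norm_num) (by omega)
      calc N * (4 * L ^ c) ≤ 2 ^ L * (2 ^ (2 * L) * (2 ^ L) ^ c) :=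
            Nat.mul_le_mul hNL (Nat.mul_le_mul h3 h2)
        _ = 2 ^ Ww c L := by
          unfold Ww
          rw [← pow_mul, ← pow_add, ← pow_add]
          congr 1
          ring
    have h4 : (N : ℝ) * (4 * (L : ℝ) ^ c) ≤ 2 ^ Ww c L := by exact_mod_cast h1
    rw [div_le_div_iff₀ (by positivity) (by positivity), one_mul]
    exact h4

end Pool.Agent.Helper89.CS
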