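import Pool.Agent.Helper6.CS.Goals2

/-!
# Packet CS-PREF (MP_81e84b_lc): prefixes of instances
-/

set_option autoImplicit false

namespace Pool.Agent.Helper89.CS

open Pool.Agent.Helper6.CS

set_option synthInstance.maxSize 1000000000 in
theorem len_inst {M : Type} [World M] (a : M) (W : M → M) [IFn M W] (v : Wd M) :
    (inst a W v).len = fo a W v.len := by
  unfold inst
  rw [Wd.len_of]

set_option synthInstance.maxSize 1000000000 in
theorem get_inst {M : Type} [World M] (a : M) (W : M → M) [IFn M W] (v : Wd M) {p : M}
    (hp : p < fo a W v.len) :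
    (inst a W v).get p = if W p < a then W p else v.get (W p - a) := by
  unfold inst
  rw [Wd.get_of_lt _ _ hp]

set_option synthInstance.maxSize 1000000000 in
theorem t_PREF (h : G_OWL) : Pool.Agent.Helper6.CS.G_PREF := by
  intro M _ a W hW hOW u e z
  obtain ⟨o1, o2, o3, o4⟩ := h M a W hW hOW
  obtain ⟨v, hv⟩ : ∃ v : Wd M, v = u ++ Wd.sg e ++ z := ⟨_, rfl⟩
  rw [← hv]
  have hvl : v.len = u.len + 1 + z.len := by rw [hv]; simp
  have hul : u.len < v.len := by
    rw [hvl]
    exact lt_of_lt_of_le (lt_add_of_pos_right _ zero_lt_one)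
      (le_add_of_nonneg_right (World.zero_le' _))
  have hq : fo a W u.len < fo a W v.len := o3 _ _ hul
  have hq1 : fo a W u.len + 1 ≤ fo a W v.len := World.add_one_le hq
  have hL : fo a W u.len + 1 + (fo a W v.len - (fo a W u.len + 1)) = fo a W v.len :=
    add_tsub_cancel_of_le hq1
  have hI : IFn M fun i : M ↦ (inst a W v).get (fo a W u.len + 1 + i) := by infer_instance
  let z' : Wd M := Wd.of (fo a W v.len - (fo a W u.len + 1))
    (fun i ↦ (inst a W v).get (fo a W u.len + 1 + i))
  have hz'l : z'.len = fo a W v.len - (fo a W u.len + 1) := Wd.len_of _ _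
  have hz'g : ∀ i, i < fo a W v.len - (fo a W u.len + 1) →
      z'.get i = (inst a W v).get (fo a W u.len + 1 + i) := fun i hi ↦ Wd.get_of_lt _ _ hi
  have hcut : ∀ p, ¬ W p < a → ∀ m, W p < a + m → W p - a < m := by
    intro p hp m hm
    obtain ⟨c, hc⟩ := World.exists_add a (W p) (not_lt.1 hp)
    rw [hc, add_tsub_cancel_left]
    rw [hc] at hm
    exact lt_of_add_lt_add_left hm
  refine ⟨z', ?_, ?_⟩
  · refine Wd.ext' ?_ fun i hi ↦ ?_
    · rw [Wd.len_append, Wd.len_append, Wd.len_sg, len_inst, len_inst, hz'l, hL]
    · rw [len_inst] at hi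
      rw [get_inst a W v hi]
      have hi' : i < fo a W u.len + 1 + (fo a W v.len - (fo a W u.len + 1)) := by rw [hL]; exact hi
      rcases Wd.lt_cases hi' with h1 | ⟨j, hj, rfl⟩
      · rw [Wd.get_append_left (inst a W u ++ Wd.sg e) z'
          (by rw [Wd.len_append, Wd.len_sg, len_inst]; exact h1)]
        rcases Wd.lt_cases h1 with h2 | ⟨j, hj, rfl⟩
        · rw [Wd.get_append_left (inst a W u) (Wd.sg e) (by rw [len_inst]; exact h2),
            get_inst a W u h2]
          by_cases h3 : W i < a
          · rw [if_pos h3, if_pos h3]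
          · rw [if_neg h3, if_neg h3, hv]
            have h4 : W i - a < u.len := hcut i h3 _ (o2 _ _ h2)
            rw [Wd.get_append_left _ _ (by
              rw [Wd.len_append, Wd.len_sg]
              exact lt_of_lt_of_le h4 (le_add_of_nonneg_right (World.zero_le' _))),
              Wd.get_append_left _ _ h4]
        · have hj0 : j = 0 := by
            have h5 : j < 0 + 1 := by rwa [zero_add]
            rw [World.lt_succ] at h5
            exact le_antisymm h5 (World.zero_le' j)
          subst hj0
          have h6 : fo a W u.len + 0 = (inst a W u).len + 0 := by rw [len_inst]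
          rw [h6, Wd.get_append_right, Wd.get_sg_zero, ← h6, add_zero, o1,
            if_neg (not_lt.2 (le_add_of_nonneg_right (World.zero_le' _))), add_tsub_cancel_left, hv,
            Wd.get_append_left _ _ (by
              rw [Wd.len_append, Wd.len_sg]
              exact lt_add_of_pos_right _ zero_lt_one)]
          have h7 := Wd.get_append_right u (Wd.sg e) 0
          rw [add_zero, Wd.get_sg_zero] at h7
          exact h7
      · have h8 : fo a W u.len + 1 + j = (inst a W u ++ Wd.sg e).len + j := by
          rw [Wd.len_append, Wd.len_sg, len_inst]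
        have h9 : (inst a W u ++ Wd.sg e ++ z').get (fo a W u.len + 1 + j) = z'.get j := by
          rw [h8, Wd.get_append_right]
        rw [h9, hz'g j hj, get_inst a W v hi]
  · intro c hc ho i hi
    rw [hz'l] at hi
    rw [hz'g i hi]
    have h1 : fo a W u.len + 1 + i < fo a W v.len := by
      rw [← hL]
      exact add_lt_add_right hi _
    rw [get_inst a W v h1]
    by_cases h3 : W (fo a W u.len + 1 + i) < a
    · rw [if_pos h3]
      exact lt_of_lt_of_le h3 hc
    · rw [if_neg h3]
      exact ho _ (hcut _ h3 _ (o2 _ _ h1))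

end Pool.Agent.Helper89.CS
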