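import Pool.Agent.Helper65.CS.Goals

/-!
# GEN: the list of the generators contains a small-bias generator
-/

namespace Pool.Agent.Helper89.CS

open Pool.Agent.Helper78.DT Pool.Agent.Helper51.ZP Pool.Agent.Helper65.CS

theorem gen : GenStmt := by
  intro N m hN
  classical
  obtain ⟨k, hk1, hk2⟩ := vecs_spec N
  have hk0 : 0 < k := by
    rcases Nat.eq_zero_or_pos k with h | h
    · subst h; simp at hk1; omega
    · exact h
  have : Fact (Nat.Prime 2) := ⟨Nat.prime_two⟩
  let F := GaloisField 2 k
  have : Fintype F := Fintype.ofFinite F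
  have hcard : Fintype.card F = 2 ^ k := by
    rw [← Nat.card_eq_fintype_card]
    exact GaloisField.card 2 k hk0.ne'
  have hfin : Module.finrank (ZMod 2) F = k := GaloisField.finrank 2 hk0.ne'
  have hbias := powGen_bias (F := F) m
  refine ⟨F × Module.Dual (ZMod 2) F, inferInstance, ⟨(0, 0)⟩, powGen m, ?_, ?_⟩
  · intro a ha
    refine (hbias a ha).trans ?_
    have h2 : (N : ℝ) ≤ Fintype.card F := by
      rw [hcard]
      exact_mod_cast hk1
    have h3 : (0 : ℝ) < N := by
      have : 0 < N := by omega
      exact_mod_cast this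
    exact div_le_div_of_nonneg_left (Nat.cast_nonneg m) h3 h2
  · intro p
    obtain ⟨c, hc⟩ := powGen_rec hfin p.1
    have h1 := lfsr_eq hk0 c (fun i => p.2 (p.1 ^ i)) (hc p.2) m
    simp only [gens, List.mem_flatMap, List.mem_map]
    refine ⟨(List.range k).map fun j => z2b (c j), (hk2 _).2 (by simp),
      (List.range k).map fun j => z2b (p.2 (p.1 ^ j)), (hk2 _).2 (by simp), ?_⟩
    rw [h1]
    apply List.ext_getElem <;> simp [powGen]

end Pool.Agent.Helper89.CS
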