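import Pool.Agent.Helper65.CS.Goals3

/-!
# MLP: the decision list of a machine is computed in polynomial time
-/

set_option autoImplicit false

namespace Pool.Agent.Helper89.CS

open Pool.Agent.Helper65.CS Pool.Agent.Helper78.DT Pool.Agent.Helper81.CC Pool.Agent.Helper51.ZP

theorem mlp_pt {α β : Type} [ToData α] [ToData β] {f : α → β}
    (h : PolyTimeComputable (encOf α) (encOf β) f) : PolyTime f :=
  ⟨Pool.Agent.Helper31.TMSim.scomp_of_polyTimeComputable h⟩

section

variable {α : Type} [ToData α] (A : Machine α)

theorem mlp_inv (x : α) (i k : ℕ) :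
    (∀ a ∈ (hst A x i)^[k] [[]], (∀ j < a.length, 3 ≤ A.act (x, i, a.take j)) ∧ a.length ≤ k ∧
      (a.length < k → A.act (x, i, a) < 3)) ∧ ((hst A x i)^[k] [[]]).Nodup := by
  induction k with
  | zero =>
    refine ⟨fun a ha => ?_, ?_⟩
    · rw [Function.iterate_zero, id, List.mem_singleton] at ha
      subst ha
      refine ⟨fun j hj => ?_, le_refl _, fun h => ?_⟩
      · exact absurd hj (Nat.not_lt_zero _)
      · exact absurd h (Nat.not_lt_zero _)
    · rw [Function.iterate_zero, id]
      exact List.nodup_singleton _
  | succ k ih =>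
    rw [Function.iterate_succ_apply']
    generalize (hst A x i)^[k] [[]] = H at *
    obtain ⟨h1, h2⟩ := ih
    unfold hst
    have key : ∀ a ∈ H, ∀ c ∈ (if 3 ≤ A.act (x, i, a) then [a ++ [false], a ++ [true]] else [a]),
        (3 ≤ A.act (x, i, a) ∧ a.length = k ∧ ∃ e : Bool, c = a ++ [e]) ∨
          (A.act (x, i, a) < 3 ∧ c = a) := by
      intro a ha c hc
      by_cases h3 : 3 ≤ A.act (x, i, a)
      · rw [if_pos h3, List.mem_cons, List.mem_singleton] at hc
        left
        refine ⟨h3, ?_, ?_⟩
        · by_contra h4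
          have h5 := (h1 a ha).2.1
          have h6 := (h1 a ha).2.2 (by omega)
          omega
        · rcases hc with h | h
          · exact ⟨false, h⟩
          · exact ⟨true, h⟩
      · rw [if_neg h3, List.mem_singleton] at hc
        right
        exact ⟨by omega, hc⟩
    refine ⟨fun c hc => ?_, ?_⟩
    · rw [List.mem_flatMap] at hc
      obtain ⟨a, ha, hc⟩ := hc
      obtain ⟨g1, g2, g3⟩ := h1 a ha
      rcases key a ha c hc with ⟨h3, h4, e, rfl⟩ | ⟨h3, rfl⟩
      · refine ⟨fun j hj => ?_, ?_, fun h => ?_⟩
        · rw [List.length_append, List.length_singleton] at hj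
          rw [List.take_append_of_le_length (by omega)]
          rcases Nat.lt_or_ge j a.length with h5 | h5
          · exact g1 j h5
          · rw [List.take_of_length_le h5]
            exact h3
        · rw [List.length_append, List.length_singleton]
          omega
        · rw [List.length_append, List.length_singleton] at h
          omega
      · exact ⟨g1, by omega, fun _ => h3⟩
    · rw [List.nodup_flatMap]
      refine ⟨fun a ha => ?_, ?_⟩
      · split_ifs
        · rw [List.nodup_cons]
          refine ⟨?_, List.nodup_singleton _⟩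
          rw [List.mem_singleton]
          intro h
          simp at h
        · exact List.nodup_singleton _
      · refine List.Pairwise.imp_of_mem (R := fun a b => a ≠ b) ?_ h2
        intro a b ha hb hab
        rw [Function.onFun, List.disjoint_left]
        intro c hc1 hc2
        rcases key a ha c hc1 with ⟨h3, h4, e, rfl⟩ | ⟨h3, rfl⟩
        · rcases key b hb _ hc2 with ⟨h5, h6, e', h7⟩ | ⟨h5, h7⟩
          · exact hab (List.append_inj_left h7 (by omega))
          · have h8 := (h1 b hb).2.1
            have h9 := congrArg List.length h7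
            rw [List.length_append, List.length_singleton] at h9
            omega
        · rcases key b hb _ hc2 with ⟨h5, h6, e', h7⟩ | ⟨h5, h7⟩
          · have h8 := (h1 c ha).2.1
            have h9 := congrArg List.length h7
            rw [List.length_append, List.length_singleton] at h9
            omega
          · exact hab h7

theorem mlp_len (x : α) (i k : ℕ) : ((hst A x i)^[k] [[]]).length ≤ A.w x := by
  obtain ⟨h1, h2⟩ := mlp_inv A x i k
  have h3 : (((hst A x i)^[k] [[]]).toFinset : Set (List Bool)) ⊆
      {a : List Bool | ∀ k < a.length, 3 ≤ A.act (x, i, a.take k)} := by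
    intro a ha
    rw [Finset.mem_coe, List.mem_toFinset] at ha
    exact (h1 a ha).1
  have h4 := (Set.encard_le_encard h3).trans (A.tree x i)
  rw [Set.encard_coe_eq_coe_finsetCard, List.toFinset_card_of_nodup h2] at h4
  exact_mod_cast h4

theorem mlp_sz (hHis : HisStmt) (x : α) (i k : ℕ) :
    Pool.Agent.Helper81.CC.sz ((hst A x i)^[k] [[]]) ≤ A.w x * (4 * A.w x + 1 + 1) + 1 := by
  have h1 := (mlp_inv A x i k).1
  have h2 := mlp_len A x i k
  refine (sz_list_le (4 * A.w x + 1) _ ?_).trans ?_
  · intro a ha
    have h3 := (hHis α A x i).1 a (h1 a ha).1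
    have h4 := sz_bools a
    omega
  · exact Nat.add_le_add_right (Nat.mul_le_mul_right _ h2) _

variable {γ : Type} [ToData γ]

theorem mlp_act {x : γ → α} {i : γ → ℕ} {a : γ → List Bool} (hx : PolyTime x) (hi : PolyTime i)
    (ha : PolyTime a) : PolyTime fun c => A.act (x c, i c, a c) :=
  PolyTime.comp (g := A.act) (f := fun c => (x c, i c, a c)) (mlp_pt A.act_poly) (by fun_prop)

theorem mlp_lvs (hHis : HisStmt) {x : γ → α} {i : γ → ℕ} (hx : PolyTime x) (hi : PolyTime i) :
    PolyTime fun c => lvs A (x c) (i c) := by
  have hw : PolyTime fun c => A.w (x c) := PolyTime.comp (mlp_pt A.w_poly) hx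
  refine PolyTime.iterate_bd (n := fun c => A.w (x c)) (s0 := fun _ => ([[]] : List (List Bool)))
    (step := fun c H => hst A (x c) (i c) H) hw (by fun_prop) ?_
    (B := fun c => A.w (x c) * (4 * A.w (x c) + 1 + 1) + 1)
    (((PBd.nat hw).mul ((((PBd.const 4).mul (PBd.nat hw)).add (PBd.const 1)).add
      (PBd.const 1))).add (PBd.const 1)) ?_
  · unfold hst
    refine PolyTime.flatMap (l := fun z : γ × List (List Bool) => z.2)
      (f := fun (z : γ × List (List Bool)) a =>
        if 3 ≤ A.act (x z.1, i z.1, a) then [a ++ [false], a ++ [true]] else [a])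
      (by fun_prop) ?_
    have h1 : PolyTime fun z : (γ × List (List Bool)) × List Bool =>
        A.act (x z.1.1, i z.1.1, z.2) :=
      mlp_act A (by fun_prop) (by fun_prop) (by fun_prop)
    exact PolyTime.itep (PolyTime.decide_le (by fun_prop) h1) (by fun_prop) (by fun_prop)
  · intro c k hk
    exact mlp_sz A hHis (x c) (i c) k

theorem mlp_trm {x : γ → α} {i : γ → ℕ} {a : γ → List Bool} (hx : PolyTime x) (hi : PolyTime i)
    (ha : PolyTime a) : PolyTime fun c => trm A (x c) (i c) (a c) := by
  unfold trm
  refine PolyTime.list_map (l := fun c => List.range (a c).length)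
    (f := fun c k => (A.act (x c, i c, (a c).take k) - 3, (a c).getD k false)) (by fun_prop) ?_
  have h1 : PolyTime fun z : γ × ℕ => A.act (x z.1, i z.1, (a z.1).take z.2) :=
    mlp_act A (x := fun z : γ × ℕ => x z.1) (i := fun z => i z.1)
      (a := fun z => (a z.1).take z.2) (by fun_prop) (by fun_prop) (by fun_prop)
  have h2 : PolyTime fun z : γ × ℕ => (a z.1).getD z.2 false :=
    PolyTime.getD (l := fun z : γ × ℕ => a z.1) (n := fun z => z.2) (by fun_prop) (by fun_prop)
      (by fun_prop)
  fun_prop

end

theorem mlp (hHis : HisStmt) : MlpStmt := by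
  intro α _ A
  have hT : PolyTime A.T := mlp_pt A.T_poly
  unfold mdl
  refine PolyTime.flatMap (l := fun x => List.range (A.T x))
    (f := fun x i => ((lvs A x i).filter fun a => decide (A.act (x, i, a) ≠ 0)).map fun a =>
      (trm A x i a, decide (A.act (x, i, a) = 2))) (by fun_prop) ?_
  refine PolyTime.list_map
    (l := fun z : α × ℕ => (lvs A z.1 z.2).filter fun a => decide (A.act (z.1, z.2, a) ≠ 0))
    (f := fun (z : α × ℕ) a => (trm A z.1 z.2 a, decide (A.act (z.1, z.2, a) = 2))) ?_ ?_
  · refine PolyTime.filter (l := fun z : α × ℕ => lvs A z.1 z.2)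
      (f := fun (z : α × ℕ) a => decide (A.act (z.1, z.2, a) ≠ 0))
      (mlp_lvs A hHis (by fun_prop) (by fun_prop)) ?_
    have h1 : PolyTime fun z : (α × ℕ) × List Bool => A.act (z.1.1, z.1.2, z.2) :=
      mlp_act A (by fun_prop) (by fun_prop) (by fun_prop)
    exact PolyTime.decide_ne h1 (by fun_prop)
  · have h1 : PolyTime fun z : (α × ℕ) × List Bool => A.act (z.1.1, z.1.2, z.2) :=
      mlp_act A (by fun_prop) (by fun_prop) (by fun_prop)
    have h2 : PolyTime fun z : (α × ℕ) × List Bool => trm A z.1.1 z.1.2 z.2 :=
      mlp_trm A (by fun_prop) (by fun_prop) (by fun_prop)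
    have h3 : PolyTime fun z : (α × ℕ) × List Bool => decide (A.act (z.1.1, z.1.2, z.2) = 2) :=
      PolyTime.decide_eq h1 (by fun_prop)
    exact PolyTime.pair h2 h3

end Pool.Agent.Helper89.CS
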